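import Pool.Agent.Lib.MP_fa837f_gt.P2.Iface

/-!
Project P2, module HE: the Hessian of `log ρ`.
-/

set_option autoImplicit false

open MeasureTheory Matrix Set Filter Topology

namespace Pool.Agent.Lib.MP_fa837f_gt.P2.H66

variable {ι : Type} [Fintype ι] [DecidableEq ι]

theorem sum_pd (f : (ι → ℝ) → ℝ) (y v : ι → ℝ) : ∑ p, v p * pd p f y = fderiv ℝ f y v := by
  have hv : v = ∑ p, v p • (Pi.single p (1 : ℝ) : ι → ℝ) := by
    ext q
    simp [Finset.sum_apply, Pi.single_apply]
  conv_rhs => rw [hv]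
  rw [map_sum]
  refine Finset.sum_congr rfl fun p _ => ?_
  rw [map_smul, smul_eq_mul]
  rfl

theorem sum_sum_pd (F : (ι → ℝ) → ℝ) (hF : ContDiff ℝ (⊤ : ℕ∞) F) (y v : ι → ℝ) :
    ∑ p, ∑ q, v p * v q * pd p (fun z => pd q F z) y =
      fderiv ℝ (fun z => fderiv ℝ F z v) y v := by
  have hd : ∀ q, DifferentiableAt ℝ (fun z => pd q F z) y := by
    intro q
    have h1 : ContDiff ℝ (⊤ : ℕ∞) (fun z => fderiv ℝ F z) := hF.fderiv_right (by simp)
    have h2 : ContDiff ℝ (⊤ : ℕ∞) (fun z => fderiv ℝ F z (Pi.single q 1)) :=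
      h1.clm_apply contDiff_const
    exact (h2.differentiable (by simp)) y
  have e1 : (fun z => fderiv ℝ F z v) = fun z => ∑ q, v q * pd q F z := by
    funext z
    rw [sum_pd]
  rw [← sum_pd, e1]
  refine Finset.sum_congr rfl fun p _ => ?_
  have e2 : pd p (fun z => ∑ q, v q * pd q F z) y = ∑ q, v q * pd p (fun z => pd q F z) y := by
    unfold pd at hd ⊢
    rw [fderiv_fun_sum (fun q _ => (hd q).const_mul (v q))]
    rw [_root_.sum_apply]
    refine Finset.sum_congr rfl fun q _ => ?_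
    rw [fderiv_const_mul (hd q)]
    rfl
  rw [e2, Finset.mul_sum]
  refine Finset.sum_congr rfl fun q _ => ?_
  ring

theorem he_st (hWa : WaStatement) (hWs : WsStatement) (hSl : SlStatement) (hSr : SrStatement) :
    HeStatement := by
  intro n k S y v
  have LF := hSl n k S
  have RF := hSr n k S (fun _ => 0)
  have BF := hWa n k S.m (S.r y) S.hm (LF.rpos y)
  have hF : ContDiff ℝ (⊤ : ℕ∞) fun x => Real.log (S.rho x) :=
    RF.srho.log fun x => (RF.rhopos x).ne'
  rw [sum_sum_pd _ hF]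
  -- the first derivative
  have e1 : (fun z => fderiv ℝ (fun x => Real.log (S.rho x)) z v) = fun z =>
      ∑ l, S.r z l * be S.m (S.r z) l l * (2 * S.δ / S.L z l * ∑ c, Yv S.m z l c * Yv S.m v l c)
        - 2 * ∑ l, S.r z l * ∑ c, Yv S.m z l c * Yv S.m v l c := by
    funext z
    have hd : DifferentiableAt ℝ S.rho z := (RF.srho.differentiable (by simp)) z
    have h1 : fderiv ℝ (fun x => Real.log (S.rho x)) z = (S.rho z)⁻¹ • fderiv ℝ S.rho z :=
      (hd.hasFDerivAt.log (RF.rhopos z).ne').fderiv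
    rw [h1, _root_.smul_apply, RF.drho z v, smul_eq_mul, ← mul_assoc,
      inv_mul_cancel₀ (RF.rhopos z).ne', one_mul]
    rfl
  rw [e1]
  -- derivatives along the line
  have line : ∀ f : Pt k → ℝ, ContDiff ℝ (⊤ : ℕ∞) f →
      HasDerivAt (fun t : ℝ => f (y + t • v)) (fderiv ℝ f y v) 0 := by
    intro f hf
    have h1 : HasFDerivAt f (fderiv ℝ f y) (y + (0 : ℝ) • v) := by
      rw [zero_smul, add_zero]
      exact ((hf.differentiable (by simp)) y).hasFDerivAt
    have h2 : HasDerivAt (fun t : ℝ => y + t • v) ((1 : ℝ) • v) 0 :=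
      ((hasDerivAt_id (0 : ℝ)).smul_const v).const_add y
    have h3 := h1.comp_hasDerivAt (0 : ℝ) h2
    rw [one_smul] at h3
    exact h3
  have y0 : y + (0 : ℝ) • v = y := by rw [zero_smul, add_zero]
  have dr : ∀ l, HasDerivAt (fun t : ℝ => S.r (y + t • v) l) (S.r y l * S.dl y v l) 0 := by
    intro l
    rw [← LF.dr l y v]
    exact line _ (LF.sr l)
  have dL : ∀ l, HasDerivAt (fun t : ℝ => S.L (y + t • v) l)
      (2 * ∑ c, Yv S.m y l c * Yv S.m v l c) 0 := by
    intro l
    rw [← LF.dL l y v]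
    exact line _ (LF.sL l)
  have dY : ∀ l c, HasDerivAt (fun t : ℝ => Yv S.m (y + t • v) l c) (Yv S.m v l c) 0 := by
    intro l c
    rw [← LF.dY l c y v]
    exact line _ (LF.sY l c)
  have dB : ∀ l, HasDerivAt (fun t : ℝ => be S.m (S.r (y + t • v)) l l)
      (-∑ j, be S.m (S.r y) l j * be S.m (S.r y) j l * (S.r y j * S.dl y v j)) 0 := by
    intro l
    rw [← RF.dbe l l y v]
    exact line _ (RF.sbe l l)
  have ds : ∀ l, HasDerivAt (fun t : ℝ => ∑ c, Yv S.m (y + t • v) l c * Yv S.m v l c)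
      (Gm S.m v l l) 0 := by
    intro l
    unfold Gm
    exact HasDerivAt.fun_sum fun c _ => (dY l c).mul_const _
  have Lne : ∀ l, S.L y l ≠ 0 := fun l => (LF.Lpos y l).ne'
  have dT : ∀ l, HasDerivAt (fun t : ℝ => 2 * S.δ / S.L (y + t • v) l *
      ∑ c, Yv S.m (y + t • v) l c * Yv S.m v l c)
      (2 * S.δ * (-(2 * ∑ c, Yv S.m y l c * Yv S.m v l c) / S.L y l ^ 2) *
        (∑ c, Yv S.m y l c * Yv S.m v l c) + 2 * S.δ / S.L y l * Gm S.m v l l) 0 := by
    intro l
    have h1 : HasDerivAt (fun t : ℝ => (S.L (y + t • v) l)⁻¹)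
        (-(2 * ∑ c, Yv S.m y l c * Yv S.m v l c) / S.L y l ^ 2) 0 := by
      have h := (dL l).fun_inv (by simp only [y0]; exact Lne l)
      simp only [y0] at h
      exact h
    have h2 := (h1.const_mul (2 * S.δ)).mul (ds l)
    simp only [y0] at h2
    refine (h2.congr_deriv ?_).congr_of_eventuallyEq (Eventually.of_forall fun t => ?_)
    · rw [div_eq_mul_inv (2 * S.δ)]
    · simp only [Pi.mul_apply, div_eq_mul_inv]
  have smooth : ContDiff ℝ (⊤ : ℕ∞) fun z =>
      ∑ l, S.r z l * be S.m (S.r z) l l * (2 * S.δ / S.L z l * ∑ c, Yv S.m z l c * Yv S.m v l c)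
        - 2 * ∑ l, S.r z l * ∑ c, Yv S.m z l c * Yv S.m v l c := by
    refine ContDiff.sub (ContDiff.sum fun l _ => ?_) (contDiff_const.mul
      (ContDiff.sum fun l _ => ?_))
    · refine ((LF.sr l).mul (RF.sbe l l)).mul (ContDiff.mul ?_ ?_)
      · exact contDiff_const.div (LF.sL l) fun z => (LF.Lpos z l).ne'
      · exact ContDiff.sum fun c _ => (LF.sY l c).mul contDiff_const
    · exact (LF.sr l).mul (ContDiff.sum fun c _ => (LF.sY l c).mul contDiff_const)
  have main := line _ smooth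
  have main2 : HasDerivAt (fun t : ℝ => ∑ l, S.r (y + t • v) l * be S.m (S.r (y + t • v)) l l *
        (2 * S.δ / S.L (y + t • v) l * ∑ c, Yv S.m (y + t • v) l c * Yv S.m v l c)
        - 2 * ∑ l, S.r (y + t • v) l * ∑ c, Yv S.m (y + t • v) l c * Yv S.m v l c)
      (∑ l, ((S.r y l * S.dl y v l * be S.m (S.r y) l l + S.r y l *
          (-∑ j, be S.m (S.r y) l j * be S.m (S.r y) j l * (S.r y j * S.dl y v j))) *
          (2 * S.δ / S.L y l * ∑ c, Yv S.m y l c * Yv S.m v l c) +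
          S.r y l * be S.m (S.r y) l l *
          (2 * S.δ * (-(2 * ∑ c, Yv S.m y l c * Yv S.m v l c) / S.L y l ^ 2) *
        (∑ c, Yv S.m y l c * Yv S.m v l c) + 2 * S.δ / S.L y l * Gm S.m v l l))
        - 2 * ∑ l, (S.r y l * S.dl y v l * (∑ c, Yv S.m y l c * Yv S.m v l c) +
            S.r y l * Gm S.m v l l)) 0 := by
    refine HasDerivAt.fun_sub (HasDerivAt.fun_sum fun l _ => ?_) (HasDerivAt.const_mul _
      (HasDerivAt.fun_sum fun l _ => ?_))
    · have h := ((dr l).mul (dB l)).mul (dT l)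
      simp only [Pi.mul_apply, y0] at h
      exact h
    · have h := (dr l).mul (ds l)
      simp only [y0] at h
      exact h
  rw [main.unique main2]
  -- the sign of the double sum
  have pos := (hWs n k S.m (S.r y) S.hm (LF.rpos y) Unit
    (fun l _ => S.r y l * S.dl y v l)).2.2.1
  have e2 : ∑ i, ∑ j, be S.m (S.r y) i j ^ 2 *
      ((fun _ : Unit => S.r y i * S.dl y v i) ⬝ᵥ (fun _ : Unit => S.r y j * S.dl y v j)) =
      -∑ l, S.r y l *
          (-∑ j, be S.m (S.r y) l j * be S.m (S.r y) j l * (S.r y j * S.dl y v j)) *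
          (2 * S.δ / S.L y l * ∑ c, Yv S.m y l c * Yv S.m v l c) := by
    rw [← Finset.sum_neg_distrib]
    refine Finset.sum_congr rfl fun l _ => ?_
    rw [mul_neg, neg_mul, neg_neg, Finset.mul_sum, Finset.sum_mul]
    refine Finset.sum_congr rfl fun j _ => ?_
    rw [BF.symm j l]
    simp only [dotProduct, Finset.univ_unique, Finset.sum_const, Finset.card_singleton, one_smul]
    unfold Sys.dl
    ring
  rw [e2] at pos
  have e3 : (∑ l, ((S.r y l * S.dl y v l * be S.m (S.r y) l l + S.r y l *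
          (-∑ j, be S.m (S.r y) l j * be S.m (S.r y) j l * (S.r y j * S.dl y v j))) *
          (2 * S.δ / S.L y l * ∑ c, Yv S.m y l c * Yv S.m v l c) +
          S.r y l * be S.m (S.r y) l l *
          (2 * S.δ * (-(2 * ∑ c, Yv S.m y l c * Yv S.m v l c) / S.L y l ^ 2) *
        (∑ c, Yv S.m y l c * Yv S.m v l c) + 2 * S.δ / S.L y l * Gm S.m v l l))
        - 2 * ∑ l, (S.r y l * S.dl y v l * (∑ c, Yv S.m y l c * Yv S.m v l c) +
            S.r y l * Gm S.m v l l)) =
      (∑ l, S.r y l *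
          (-∑ j, be S.m (S.r y) l j * be S.m (S.r y) j l * (S.r y j * S.dl y v j)) *
          (2 * S.δ / S.L y l * ∑ c, Yv S.m y l c * Yv S.m v l c)) +
      -∑ l, (2 * S.r y l * Gm S.m v l l
        + 4 * S.δ * S.r y l / S.L y l * (∑ c, Yv S.m y l c * Yv S.m v l c) ^ 2
        - 2 * S.δ * (S.r y l * be S.m (S.r y) l l) / S.L y l * Gm S.m v l l
        + 4 * S.δ * (1 - S.δ) * (S.r y l * be S.m (S.r y) l l) / S.L y l ^ 2 *
          (∑ c, Yv S.m y l c * Yv S.m v l c) ^ 2) := by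
    rw [Finset.mul_sum, ← Finset.sum_neg_distrib, ← Finset.sum_add_distrib,
      ← Finset.sum_sub_distrib]
    refine Finset.sum_congr rfl fun l _ => ?_
    unfold Sys.dl
    have := Lne l
    field_simp
    ring
  rw [e3]
  linarith

end Pool.Agent.Lib.MP_fa837f_gt.P2.H66
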